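import Pool.Agent.H.MP_797bdc_co.Defs

set_option autoImplicit false

namespace Pool.Agent.H.MP_797bdc_co

open Finset

variable {n : ℕ}

theorem bd_zero {σ τ : Finset (Fin n)} (h : ¬ τ ⊆ σ) : bd σ τ = 0 :=
  sum_eq_zero fun v _ => if_neg fun e : τ = σ.erase v => h (e ▸ erase_subset _ _)

theorem bd_ne {σ τ : Finset (Fin n)} (h : τ ⊆ σ) (hc : σ.card = τ.card + 1) : bd σ τ ≠ 0 := by
  obtain ⟨v, hv, hv'⟩ := exists_mem_notMem_of_card_lt_card (show τ.card < σ.card by omega)
  have e : τ = σ.erase v := eq_of_subset_of_card_le (subset_erase.2 ⟨h, hv'⟩)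
    (by rw [card_erase_of_mem hv]; omega)
  unfold bd
  rw [sum_eq_single v, if_pos e]
  · exact pow_ne_zero _ (by norm_num)
  · intro w hw hwv
    refine if_neg fun e' => hv' ?_
    rw [e']; exact mem_erase.2 ⟨hwv.symm, hv⟩
  · intro h; exact absurd hv h

theorem indep {d : ℕ} {T : Finset (Finset (Fin n))} (h : Collapsible d T)
    (hc : ∀ σ ∈ T, σ.card = d + 1) : LinearIndepOn ℚ bd (T : Set (Finset (Fin n))) := by
  induction h with
  | empty => simp
  | step T σ τ h1 h2 h3 h4 _ ih =>
    have := ih fun s hs => hc s (mem_of_mem_erase hs)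
    rw [← insert_erase h1, coe_insert, linearIndepOn_insert (by simp)]
    refine ⟨this, fun hm => bd_ne h3 (by rw [hc σ h1, h2]) ?_⟩
    have hle : Submodule.span ℚ (bd '' (T.erase σ : Set (Finset (Fin n)))) ≤
        LinearMap.ker (LinearMap.proj (R := ℚ) (φ := fun _ : Finset (Fin n) => ℚ) τ) := by
      rw [Submodule.span_le]
      rintro _ ⟨s, hs, rfl⟩
      have hs' := mem_erase.1 (mem_coe.1 hs)
      exact bd_zero fun hh => hs'.1 (h4 s hs'.2 hh)
    exact hle hm

def ind (e : Finset (Fin n)) : Finset (Fin n) → ℚ := fun τ => if τ = e then 1 else 0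

theorem bd3 {a b c : Fin n} (h1 : a < b) (h2 : b < c) :
    bd {a, b, c} = ind {b, c} - ind {a, c} + ind {a, b} := by
  have h3 := h1.trans h2
  have e1 : ({a, b, c} : Finset (Fin n)).erase a = {b, c} := by
    ext x; simp only [mem_erase, mem_insert, mem_singleton]; omega
  have e2 : ({a, b, c} : Finset (Fin n)).erase b = {a, c} := by
    ext x; simp only [mem_erase, mem_insert, mem_singleton]; omega
  have e3 : ({a, b, c} : Finset (Fin n)).erase c = {a, b} := by
    ext x; simp only [mem_erase, mem_insert, mem_singleton]; omega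
  have f1 : ({a, b, c} : Finset (Fin n)).filter (· < a) = ∅ := by
    ext x; simp only [mem_filter, mem_insert, mem_singleton, notMem_empty, iff_false]; omega
  have f2 : ({a, b, c} : Finset (Fin n)).filter (· < b) = {a} := by
    ext x; simp only [mem_filter, mem_insert, mem_singleton]; omega
  have f3 : ({a, b, c} : Finset (Fin n)).filter (· < c) = {a, b} := by
    ext x; simp only [mem_filter, mem_insert, mem_singleton]; omega
  funext τ
  unfold bd
  rw [sum_insert (by simp only [mem_insert, mem_singleton]; omega),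
    sum_insert (by simp only [mem_singleton]; omega), sum_singleton, e1, e2, e3, f1, f2, f3,
    card_pair h1.ne]
  simp only [ind, Pi.add_apply, Pi.sub_apply, card_empty, card_singleton]
  split_ifs <;> norm_num

theorem sort3 {σ : Finset (Fin n)} (h : σ.card = 3) : ∃ a b c, a < b ∧ b < c ∧ σ = {a, b, c} := by
  obtain ⟨x, y, z, h1, h2, h3, rfl⟩ := card_eq_three.1 h
  have key : ∀ a b c : Fin n, (∀ w, w = x ∨ w = y ∨ w = z ↔ w = a ∨ w = b ∨ w = c) →
      ({x, y, z} : Finset (Fin n)) = {a, b, c} := fun a b c h => by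
    ext w; simpa using h w
  rcases lt_or_gt_of_ne h1 with a | a <;> rcases lt_or_gt_of_ne h2 with b | b <;>
    rcases lt_or_gt_of_ne h3 with c | c
  · exact ⟨x, y, z, a, c, rfl⟩
  · exact ⟨x, z, y, b, c, key _ _ _ (by tauto)⟩
  · omega
  · exact ⟨z, x, y, b, a, key _ _ _ (by tauto)⟩
  · exact ⟨y, x, z, a, b, key _ _ _ (by tauto)⟩
  · omega
  · exact ⟨y, z, x, c, b, key _ _ _ (by tauto)⟩
  · exact ⟨z, y, x, c, a, key _ _ _ (by tauto)⟩

theorem rank (hn : 0 < n) {T : Finset (Finset (Fin n))} (hc : ∀ σ ∈ T, σ.card = 3)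
    (h : LinearIndepOn ℚ bd (T : Set (Finset (Fin n)))) : T.card ≤ (n - 1).choose 2 := by
  classical
  let z : Fin n := ⟨0, hn⟩
  let W := (powersetCard 2 (univ.erase z)).image fun e => bd (insert z e)
  have hW : W.card ≤ (n - 1).choose 2 := card_image_le.trans (by simp)
  have hm : ∀ a b, z < a → a < b → bd {z, a, b} ∈ Submodule.span ℚ (W : Set _) := by
    intro a b h1 h2
    refine Submodule.subset_span (mem_coe.2 (mem_image.2 ⟨{a, b}, ?_, rfl⟩))
    rw [mem_powersetCard]
    refine ⟨fun x hx => ?_, card_pair h2.ne⟩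
    simp only [mem_insert, mem_singleton] at hx
    simp only [mem_erase, mem_univ, and_true]
    omega
  have := linearIndependent_le_span_aux' (fun σ : (T : Set (Finset (Fin n))) => bd σ.1) h
    (W : Set _) (by
      rintro _ ⟨⟨σ, hσ⟩, rfl⟩
      obtain ⟨a, b, c, h1, h2, rfl⟩ := sort3 (hc σ hσ)
      by_cases ha : a = z
      · subst ha; exact hm b c h1 h2
      · have h0 : z < a := lt_of_le_of_ne (Fin.le_def.2 (Nat.zero_le _)) (Ne.symm ha)
        have e : bd {a, b, c} = bd {z, b, c} - bd {z, a, c} + bd {z, a, b} := by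
          rw [bd3 h1 h2, bd3 (h0.trans h1) h2, bd3 h0 (h1.trans h2), bd3 h0 h1]; ring
        change bd {a, b, c} ∈ Submodule.span ℚ (W : Set _)
        rw [e]
        exact Submodule.add_mem _ (Submodule.sub_mem _ (hm _ _ (h0.trans h1) h2)
          (hm _ _ h0 (h1.trans h2))) (hm _ _ h0 h1))
  simp only [coe_sort_coe, Fintype.card_coe] at this
  omega

def Good (n : ℕ) (T : Finset (Finset (Fin n))) : Prop := Hypertree n 2 T ∧ Collapsible 2 T

theorem exch (hn : 0 < n) {X : Finset (Finset (Fin n))} {τ σ : Finset (Fin n)} (h1 : τ ∉ X)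
    (h2 : σ ∉ X) (hne : τ ≠ σ) (g : Good n (insert τ X)) (g' : Good n (insert σ X)) :
    Move n 2 (insert τ X) (insert σ X) := by
  classical
  have hσ : σ ∉ insert τ X := by simp [h2, hne.symm]
  have hc := g'.1.1 σ (mem_insert_self _ _)
  have dep : ¬ LinearIndepOn ℚ bd ((insert σ (insert τ X) : Finset _) : Set (Finset (Fin n))) := by
    intro h
    have := rank hn (fun s hs => by
      rcases mem_insert.1 hs with rfl | hs
      · exact hc
      · exact g.1.1 s hs) h
    rw [card_insert_of_notMem hσ, g.1.2.2] at this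
    omega
  obtain ⟨C, hC, hmin⟩ := ((insert σ (insert τ X)).powerset.filter fun C : Finset (Finset (Fin n)) =>
    ¬ LinearIndepOn ℚ bd (C : Set (Finset (Fin n)))).exists_min_image card
    ⟨_, mem_filter.2 ⟨mem_powerset_self _, dep⟩⟩
  rw [mem_filter, mem_powerset] at hC
  refine ⟨g.1, g.2, g'.1, g'.2, σ, τ, C, hc, hσ, hC.1, ?_, ⟨hC.2, fun D hD => ?_⟩, ?_, hne,
    by rw [erase_insert h1]⟩
  · by_contra hh
    have g0 : LinearIndepOn ℚ bd ((insert τ X : Finset _) : Set (Finset (Fin n))) := g.1.2.1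
    refine hC.2 (g0.mono ?_)
    intro x hx
    rcases mem_insert.1 (hC.1 hx) with rfl | h
    · exact absurd hx hh
    · exact h
  · by_contra hh
    have := hmin D (mem_filter.2 ⟨mem_powerset.2 (hD.1.trans hC.1), hh⟩)
    have := card_lt_card hD
    omega
  · by_contra hh
    have g0 : LinearIndepOn ℚ bd ((insert σ X : Finset _) : Set (Finset (Fin n))) := g'.1.2.1
    refine hC.2 (g0.mono ?_)
    intro x hx
    rcases mem_insert.1 (hC.1 hx) with rfl | h
    · simp
    · rcases mem_insert.1 h with rfl | h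
      · exact absurd hx hh
      · simp [h]

end Pool.Agent.H.MP_797bdc_co
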