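import Pool.Agent.H.MP_797bdc_co.A

set_option autoImplicit false

namespace Pool.Agent.H.MP_797bdc_co

open Finset

variable {n : ℕ}

def OK (A : Finset (Finset (Fin n))) (e t : Finset (Fin n)) : Prop :=
  e ∉ A ∧ e.card = 2 ∧ t.card = 3 ∧ e ⊆ t ∧ ∀ f, f ⊆ t → f.card = 2 → f ≠ e → f ∈ A

inductive Exp : Finset (Finset (Fin n)) → Finset (Finset (Fin n)) → Finset (Finset (Fin n)) → Prop
  | refl (A) : Exp A ∅ A
  | step (A e t S B) : OK A e t → Exp (insert e A) S B → Exp A (insert t S) B

theorem OK.all {A : Finset (Finset (Fin n))} {e t : Finset (Fin n)} (h : OK A e t) (f)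
    (h1 : f ⊆ t) (h2 : f.card = 2) : f ∈ insert e A := by
  by_cases c : f = e
  · simp [c]
  · exact mem_insert_of_mem (h.2.2.2.2 f h1 h2 c)

theorem Exp.sub {A S B : Finset (Finset (Fin n))} (h : Exp A S B) : A ⊆ B := by
  induction h with
  | refl => exact Subset.rfl
  | step A e t S B _ _ ih => exact (subset_insert _ _).trans ih

theorem Exp.mem {A S B : Finset (Finset (Fin n))} (h : Exp A S B) : ∀ t ∈ S, t.card = 3 ∧
    (∃ e, e ⊆ t ∧ e.card = 2 ∧ e ∉ A) ∧ ∀ f, f ⊆ t → f.card = 2 → f ∈ B := by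
  induction h with
  | refl => simp
  | step A e t S B h1 h2 ih =>
    intro s hs
    rcases mem_insert.1 hs with rfl | hs
    · exact ⟨h1.2.2.1, ⟨e, h1.2.2.2.1, h1.2.1, h1.1⟩, fun f a b => h2.sub (h1.all f a b)⟩
    · obtain ⟨a, ⟨e', b1, b2, b3⟩, c⟩ := ih s hs
      exact ⟨a, ⟨e', b1, b2, fun hh => b3 (mem_insert_of_mem hh)⟩, c⟩

theorem Exp.notMem {A S B : Finset (Finset (Fin n))} {e t : Finset (Fin n)} (h1 : OK A e t)
    (h : Exp (insert e A) S B) : t ∉ S := fun hh => by
  obtain ⟨-, ⟨e', b1, b2, b3⟩, -⟩ := h.mem t hh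
  exact b3 (h1.all e' b1 b2)

theorem Exp.card {A S B : Finset (Finset (Fin n))} (h : Exp A S B) : S.card + A.card = B.card := by
  induction h with
  | refl => simp
  | step A e t S B h1 h2 ih =>
    rw [card_insert_of_notMem (h2.notMem h1)]
    rw [card_insert_of_notMem h1.1] at ih
    omega

theorem Exp.trans {A S B S' C : Finset (Finset (Fin n))} (h : Exp A S B) (h' : Exp B S' C) :
    Exp A (S ∪ S') C := by
  induction h with
  | refl => simpa using h'
  | step A e t S B h1 _ ih => rw [insert_union]; exact .step A e t _ C h1 (ih h')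

theorem Exp.coll {A S B : Finset (Finset (Fin n))} (h : Exp A S B) : ∀ S0, Collapsible 2 S0 →
    (∀ t ∈ S0, ∀ f, f ⊆ t → f.card = 2 → f ∈ A) → Collapsible 2 (S0 ∪ S) := by
  induction h with
  | refl => intro S0 h _; simpa using h
  | step A e t S B h1 _ ih =>
    intro S0 c h0
    have ht : ∀ s ∈ S0, ¬ e ⊆ s := fun s hs hh => h1.1 (h0 s hs e hh h1.2.1)
    have := ih (insert t S0) (.step _ t e (mem_insert_self _ _) h1.2.1 h1.2.2.2.1 (fun s hs hh => by
        rcases mem_insert.1 hs with rfl | hs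
        · rfl
        · exact absurd hh (ht s hs))
      (by rw [erase_insert fun hh => ht t hh h1.2.2.2.1]; exact c)) (fun s hs f a b => by
        rcases mem_insert.1 hs with rfl | hs
        · exact h1.all f a b
        · exact mem_insert_of_mem (h0 s hs f a b))
    rwa [insert_union, ← union_insert] at this

theorem ofColl {T : Finset (Finset (Fin n))} (h : Collapsible 2 T) : (∀ t ∈ T, t.card = 3) →
    ∀ B, (∀ t ∈ T, ∀ f, f ⊆ t → f.card = 2 → f ∈ B) → ∃ A, Exp A T B := by
  induction h with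
  | empty => exact fun _ B _ => ⟨B, .refl B⟩
  | step T σ τ h1 h2 h3 h4 _ ih =>
    intro hc B hB
    obtain ⟨A, hA⟩ := ih (fun t ht => hc t (mem_of_mem_erase ht)) (B.erase τ) (fun t ht f a b =>
      mem_erase.2 ⟨fun e => (mem_erase.1 ht).1 (h4 t (mem_of_mem_erase ht) (e ▸ a)),
        hB t (mem_of_mem_erase ht) f a b⟩)
    have h5 : Exp (B.erase τ) (insert σ ∅) (insert τ (B.erase τ)) :=
      .step _ τ σ ∅ _ ⟨notMem_erase _ _, h2, hc σ h1, h3,
        fun f a b c => mem_erase.2 ⟨c, hB σ h1 f a b⟩⟩ (.refl _)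
    rw [insert_erase (hB σ h1 τ h3 h2)] at h5
    have h6 := hA.trans h5
    rw [union_insert, union_empty, insert_erase h1] at h6
    exact ⟨A, h6⟩

theorem Exp.compl {A S B : Finset (Finset (Fin n))} (h : Exp A S B) : ∀ A', A ⊆ A' →
    ∃ S', Exp A' S' (A' ∪ B) := by
  induction h with
  | refl A => intro A' h; rw [union_eq_left.2 h]; exact ⟨∅, .refl _⟩
  | step A e t S B h1 h2 ih =>
    intro A' h
    by_cases c : e ∈ A'
    · exact ih A' (insert_subset c h)
    · obtain ⟨S', hS⟩ := ih (insert e A') (insert_subset_insert _ h)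
      rw [insert_union, insert_eq_of_mem (mem_union_right _ (h2.sub (mem_insert_self _ _)))] at hS
      exact ⟨_, .step A' e t S' _ ⟨c, h1.2.1, h1.2.2.1, h1.2.2.2.1,
        fun f a b c => h (h1.2.2.2.2 f a b c)⟩ hS⟩

theorem Exp.front {A T B : Finset (Finset (Fin n))} (h : Exp A T B) {e : Finset (Fin n)}
    (hB : e ∈ B) : e ∉ A → ∃ t T2, T = insert t T2 ∧ t ∉ T2 ∧ Exp (insert e A) T2 B := by
  induction h with
  | refl => intro h; exact absurd hB h
  | step A e1 t1 S B h1 h2 ih =>
    intro hA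
    by_cases c : e = e1
    · subst c; exact ⟨t1, S, rfl, h2.notMem h1, h2⟩
    · obtain ⟨t, T2, rfl, a, b⟩ := ih hB (by simp [c, hA])
      have hn := h2.notMem h1
      refine ⟨t, insert t1 T2, insert_comm _ _ _, ?_, .step _ e1 t1 _ _ ⟨by simp [Ne.symm c, h1.1],
        h1.2.1, h1.2.2.1, h1.2.2.2.1, fun f a b c => mem_insert_of_mem (h1.2.2.2.2 f a b c)⟩
        (by rwa [insert_comm])⟩
      simp only [mem_insert, not_or] at hn ⊢
      exact ⟨Ne.symm hn.1, a⟩

def E (n : ℕ) : Finset (Finset (Fin n)) := powersetCard 2 univ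

theorem mem_E {e : Finset (Fin n)} : e ∈ E n ↔ e.card = 2 := by simp [E]

theorem card_E (hn : 0 < n) : (E n).card = (n - 1) + (n - 1).choose 2 := by
  obtain ⟨m, rfl⟩ : ∃ m, n = m + 1 := ⟨n - 1, by omega⟩
  simp [E, Nat.choose_succ_succ]

theorem Exp.good (hn : 0 < n) {A T : Finset (Finset (Fin n))} (h : Exp A T (E n))
    (hA : A.card = n - 1) : Good n T := by
  have c : Collapsible 2 T := by simpa using h.coll ∅ .empty (by simp)
  have h3 := fun t ht => (h.mem t ht).1
  refine ⟨⟨h3, indep c h3, ?_⟩, c⟩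
  have := h.card
  rw [card_E hn] at this
  omega

theorem link (hn : 0 < n) {A0 A T' B : Finset (Finset (Fin n))} (h0 : A0.card = n - 1)
    (h' : Exp A T' B) : B = E n → ∀ S T, Exp A0 S A → Exp A T (E n) →
    Relation.ReflTransGen (Move n 2) (S ∪ T) (S ∪ T') ∧
      Relation.ReflTransGen (Move n 2) (S ∪ T') (S ∪ T) := by
  induction h' with
  | refl A =>
    rintro rfl S T _ h
    have := h.card
    obtain rfl : T = ∅ := card_eq_zero.1 (by omega)
    exact ⟨.refl, .refl⟩
  | step A e t' T'' B h1 h2 ih =>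
    rintro rfl S T hS h
    obtain ⟨t, T2, rfl, a, b⟩ := h.front (mem_E.2 h1.2.1) h1.1
    have hS' : Exp A0 (S ∪ insert t' ∅) (insert e A) := hS.trans (.step _ e t' _ _ h1 (.refl _))
    have := ih rfl _ T2 hS' b
    rw [union_insert, union_empty, insert_union, insert_union] at this
    rw [union_insert, union_insert]
    have g1 := (hS.trans h).good hn h0
    have g2 := (hS.trans (.step _ e t' _ _ h1 b)).good hn h0
    rw [union_insert] at g1 g2
    by_cases c : t = t'
    · subst c; exact this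
    · have n1 : t ∉ S ∪ T2 := by
        rw [mem_union, not_or]
        refine ⟨fun hh => ?_, a⟩
        obtain ⟨-, ⟨f, f1, f2, f3⟩, -⟩ := h.mem t (mem_insert_self _ _)
        exact f3 ((hS.mem t hh).2.2 f f1 f2)
      have n2 : t' ∉ S ∪ T2 := by
        rw [mem_union, not_or]
        exact ⟨fun hh => h1.1 ((hS.mem t' hh).2.2 e h1.2.2.2.1 h1.2.1), b.notMem h1⟩
      exact ⟨.head (exch hn n1 n2 c g1 g2) this.1, .tail this.2 (exch hn n2 n1 (Ne.symm c) g2 g1)⟩

theorem link' (hn : 0 < n) {A T T' : Finset (Finset (Fin n))} (h0 : A.card = n - 1)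
    (h : Exp A T (E n)) (h' : Exp A T' (E n)) : Relation.ReflTransGen (Move n 2) T T' := by
  simpa using (link hn h0 h' rfl ∅ T (.refl _) h).1

theorem Exp.closed {A S B : Finset (Finset (Fin n))} (h : Exp A S B) (N : Fin n → Prop) :
    (∀ f ∈ A, ∀ x ∈ f, ∀ y ∈ f, N x → N y) → ∀ f ∈ B, ∀ x ∈ f, ∀ y ∈ f, N x → N y := by
  induction h with
  | refl => exact id
  | step A e t S B h1 _ ih =>
    intro hA
    refine ih fun f hf => ?_
    rcases mem_insert.1 hf with rfl | hf
    · obtain ⟨w, w1, w2⟩ := exists_mem_notMem_of_card_lt_card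
        (show f.card < t.card by rw [h1.2.1, h1.2.2.1]; norm_num)
      have key : ∀ x ∈ f, ({x, w} : Finset (Fin n)) ∈ A := fun x hx =>
        h1.2.2.2.2 _ (insert_subset (h1.2.2.2.1 hx) (by simpa using w1))
          (card_pair fun e => w2 (e ▸ hx)) fun e => w2 (e ▸ by simp)
      intro x hx y hy hN
      exact hA _ (key y hy) w (by simp) y (by simp) (hA _ (key x hx) x (by simp) w (by simp) hN)
    · exact hA f hf

theorem pairs {a b c : Fin n} {f : Finset (Fin n)} (h : f ⊆ {a, b, c}) (h2 : f.card = 2) :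
    f = {a, b} ∨ f = {a, c} ∨ f = {b, c} := by
  obtain ⟨x, y, hxy, rfl⟩ := card_eq_two.1 h2
  have hx := h (mem_insert_self _ _)
  have hy := h (mem_insert_of_mem (mem_singleton_self y))
  simp only [mem_insert, mem_singleton] at hx hy
  rcases hx with rfl | rfl | rfl <;> rcases hy with rfl | rfl | rfl <;>
    simp_all [pair_comm]

def star (z : Fin n) : Finset (Finset (Fin n)) := (univ.erase z).image fun v => {z, v}

theorem card_star (z : Fin n) : (star z).card = n - 1 := by
  rw [star, card_image_of_injOn, card_erase_of_mem (mem_univ _)]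
  · simp
  · intro x hx y _ e
    have : x ∈ ({z, y} : Finset (Fin n)) := by
      have e' : ({z, x} : Finset (Fin n)) = {z, y} := e
      rw [← e']; simp
    simp only [mem_insert, mem_singleton] at this
    rcases this with h | h
    · simp [h] at hx
    · exact h

theorem toStar (hn : 0 < n) (z : Fin n) (k : ℕ) : ∀ A T : Finset (Finset (Fin n)),
    (star z \ A).card = k → A.card = n - 1 → Exp A T (E n) → ∃ T1, Exp (star z) T1 (E n) ∧
      Relation.ReflTransGen (Move n 2) T T1 ∧ Relation.ReflTransGen (Move n 2) T1 T := by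
  induction k with
  | zero =>
    intro A T h1 h2 h
    have : star z = A := eq_of_subset_of_card_le (sdiff_eq_empty_iff_subset.1 (card_eq_zero.1 h1))
      (by rw [card_star, h2])
    exact ⟨T, this ▸ h, .refl, .refl⟩
  | succ k ih =>
    intro A T h1 h2 h
    obtain ⟨u, v, a1, a2, a3, a4, a5, a6⟩ : ∃ u v, u ≠ z ∧ v ≠ z ∧ u ≠ v ∧ {z, u} ∈ A ∧
        {z, v} ∉ A ∧ {u, v} ∈ A := by
      by_contra hc
      push Not at hc
      obtain ⟨g, hg⟩ := card_pos.1 (show 0 < (star z \ A).card by omega)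
      obtain ⟨g1, g2⟩ := mem_sdiff.1 hg
      obtain ⟨v, hv, rfl⟩ := mem_image.1 g1
      have hv' := (mem_erase.1 hv).1
      have := h.closed (fun x => x = z ∨ {z, x} ∈ A) (fun f hf x hx y hy hN => by
        by_contra hy'
        push Not at hy'
        have hxy : x ≠ y := by rintro rfl; tauto
        have e : ({x, y} : Finset (Fin n)) = f := eq_of_subset_of_card_le
          (insert_subset hx (by simpa using hy)) (by rw [card_pair hxy, mem_E.1 (h.sub hf)])
        subst e
        by_cases c : x = z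
        · subst c; exact hy'.2 hf
        · exact hc x y c hy'.1 hxy (hN.resolve_left c) hy'.2 hf) {z, v}
        (mem_E.2 (card_pair hv'.symm)) z (by simp) v (by simp) (Or.inl rfl)
      tauto
    have c3 : ({z, u, v} : Finset (Fin n)).card = 3 :=
      card_eq_three.2 ⟨z, u, v, a1.symm, a2.symm, a3, rfl⟩
    have n1 : ({u, v} : Finset (Fin n)) ≠ {z, v} := fun e => a5 (e ▸ a6)
    have n2 : ∀ w, ({z, w} : Finset (Fin n)) ≠ {u, v} := fun w e => by
      have : z ∈ ({u, v} : Finset (Fin n)) := e ▸ mem_insert_self _ _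
      simp only [mem_insert, mem_singleton] at this
      rcases this with h | h
      · exact a1 h.symm
      · exact a2 h.symm
    obtain ⟨T2, hT⟩ := h.compl (insert {z, v} A) (subset_insert _ _)
    rw [union_eq_right.2 (insert_subset (mem_E.2 (card_pair a2.symm)) h.sub)] at hT
    have x1 : Exp A (insert {z, u, v} T2) (E n) := .step _ {z, v} _ _ _
      ⟨a5, card_pair a2.symm, c3, by intro x; simp; tauto, fun f b1 b2 b3 => by
        rcases pairs b1 b2 with rfl | rfl | rfl
        · exact a4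
        · exact absurd rfl b3
        · exact a6⟩ hT
    have x2 : Exp (insert {z, v} (A.erase {u, v})) (insert {z, u, v} T2) (E n) :=
      .step _ {u, v} _ _ _ ⟨by simp [n1], card_pair a3, c3, by intro x; simp; tauto,
        fun f b1 b2 b3 => by
          rcases pairs b1 b2 with rfl | rfl | rfl
          · exact mem_insert_of_mem (mem_erase.2 ⟨n2 u, a4⟩)
          · exact mem_insert_self _ _
          · exact absurd rfl b3⟩ (by rwa [insert_comm, insert_erase a6])
    obtain ⟨T1, y1, y2, y3⟩ := ih _ _ (by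
      have : star z \ insert {z, v} (A.erase {u, v}) = (star z \ A).erase {z, v} := by
        ext g
        simp only [mem_sdiff, mem_insert, mem_erase, not_or, not_and]
        constructor
        · rintro ⟨b1, b2, b3⟩
          obtain ⟨w, -, rfl⟩ := mem_image.1 b1
          exact ⟨b2, b1, b3 (n2 w)⟩
        · rintro ⟨b1, b2, b3⟩
          exact ⟨b2, b1, fun _ => b3⟩
      have hm : ({z, v} : Finset (Fin n)) ∈ star z := mem_image.2 ⟨v, by simp [a2], rfl⟩
      rw [this, card_erase_of_mem (mem_sdiff.2 ⟨hm, a5⟩), h1]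
      rfl) (by
      rw [card_insert_of_notMem (fun hh => a5 (mem_of_mem_erase hh)), card_erase_of_mem a6]
      have := card_pos.2 ⟨_, a6⟩
      omega) x2
    exact ⟨T1, y1, (link' hn h2 h x1).trans y2, y3.trans (link' hn h2 x1 h)⟩

theorem main (hn : 0 < n) {T T' : Finset (Finset (Fin n))} (g : Good n T) (g' : Good n T') :
    Relation.ReflTransGen (Move n 2) T T' := by
  have key : ∀ T, Good n T → ∃ T1, Exp (star ⟨0, hn⟩) T1 (E n) ∧
      Relation.ReflTransGen (Move n 2) T T1 ∧ Relation.ReflTransGen (Move n 2) T1 T := by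
    intro T g
    obtain ⟨A, hA⟩ := ofColl g.2 g.1.1 (E n) fun _ _ f _ b => mem_E.2 b
    have := hA.card
    rw [card_E hn, g.1.2.2] at this
    exact toStar hn _ _ A T rfl (by omega) hA
  obtain ⟨T1, a1, a2, -⟩ := key T g
  obtain ⟨T2, b1, -, b3⟩ := key T' g'
  exact a2.trans ((link' hn (card_star _) a1 b1).trans b3)

end Pool.Agent.H.MP_797bdc_co
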