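import Mathlib

set_option autoImplicit false

namespace Pool.Agent.H.MP_797bdc_co

/-- The rational boundary of the face `σ`, as a function on vertex sets: its coefficient at the
facet obtained by deleting the vertex `v` of `σ` is `(-1)^(number of vertices of σ below v)`. -/
def bd {n : ℕ} (σ : Finset (Fin n)) : Finset (Fin n) → ℚ :=
  fun τ => ∑ v ∈ σ, if τ = σ.erase v then (-1) ^ (σ.filter (· < v)).card else 0

/-- `T` is a `d`-hypertree on `n` vertices. -/
def Hypertree (n d : ℕ) (T : Finset (Finset (Fin n))) : Prop :=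
  (∀ σ ∈ T, σ.card = d + 1) ∧ LinearIndependent ℚ (fun σ : T => bd σ.1) ∧
    T.card = (n - 1).choose d

/-- `T` is `d`-collapsible. -/
inductive Collapsible {n : ℕ} (d : ℕ) : Finset (Finset (Fin n)) → Prop
  | empty : Collapsible d ∅
  | step (T : Finset (Finset (Fin n))) (σ τ : Finset (Fin n)) : σ ∈ T → τ.card = d → τ ⊆ σ →
      (∀ σ' ∈ T, τ ⊆ σ' → σ' = σ) → Collapsible d (T.erase σ) → Collapsible d T

/-- `C` is a `d`-cycle: a minimal set of faces with linearly dependent boundaries. -/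
def Cycle {n : ℕ} (C : Finset (Finset (Fin n))) : Prop :=
  ¬ LinearIndependent ℚ (fun σ : C => bd σ.1) ∧
    ∀ D : Finset (Finset (Fin n)), D ⊂ C → LinearIndependent ℚ (fun σ : D => bd σ.1)

/-- A move of the restricted chain that changes the state. -/
def Move (n d : ℕ) (T T' : Finset (Finset (Fin n))) : Prop :=
  Hypertree n d T ∧ Collapsible d T ∧ Hypertree n d T' ∧ Collapsible d T' ∧
    ∃ σ τ C, σ.card = d + 1 ∧ σ ∉ T ∧ C ⊆ insert σ T ∧ σ ∈ C ∧ Cycle C ∧ τ ∈ C ∧ τ ≠ σ ∧
      T' = insert σ (T.erase τ)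

end Pool.Agent.H.MP_797bdc_co
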